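import Mathlib

set_option autoImplicit false
open Polynomial

namespace Pool.Agent.H.MP_160e58_al

variable {F A : Type*} [Field F] [Ring A] [Algebra F A] [Algebra F[X] A] [IsScalarTower F F[X] A]

lemma exists_poly (c : ℕ → F) (N : ℕ) : ∃ p : F[X], ∀ j < N, p.coeff j = c j :=
  ⟨∑ i ∈ Finset.range N, monomial i (c i), fun j hj => by
    simp [coeff_monomial, hj]⟩

lemma coeff_Xd (r : F[X]) (j : ℕ) : (X * derivative r).coeff j = j * r.coeff j := by
  cases j with
  | zero => simp
  | succ j => rw [coeff_X_mul, coeff_derivative]; push_cast; ring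

lemma dual (μ : A →ₗ[F] F) (k : ℕ) (y : A) (hy : ∀ i, μ ((X : F[X]) ^ (k + 1 + i) • y) = 0)
    (P : F[X]) (hP : ∀ j ≤ k, P.coeff j = μ ((X : F[X]) ^ (k - j) • y)) (b : F[X]) :
    μ (b • y) = (b * P).coeff k := by
  induction b using Polynomial.induction_on' with
  | add p q hp hq => rw [add_smul, map_add, hp, hq, add_mul, coeff_add]
  | monomial i c =>
    rw [← C_mul_X_pow_eq_monomial, ← smul_eq_C_mul, smul_assoc, map_smul, smul_mul_assoc,
      coeff_smul, coeff_X_pow_mul']
    congr 1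
    split_ifs with h
    · rw [hP _ (by omega)]; congr 3; omega
    · obtain ⟨l, rfl⟩ : ∃ l, i = k + 1 + l := ⟨i - (k + 1), by omega⟩
      exact hy l

def q (e f : A) (a b c d : F[X]) : A := a • (1 : A) + b • e + c • f + d • (e * f)

section
variable {e f : A}

omit [Algebra F A] [IsScalarTower F F[X] A] in
lemma q_mul (hee : e * e = 0) (hff : f * f = 0) (hfe : f * e = -(e * f))
    (a b c d a' b' c' d' : F[X]) : q e f a b c d * q e f a' b' c' d' =
      q e f (a * a') (a * b' + b * a') (a * c' + c * a') (a * d' + d * a' + b * c' - c * b') := by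
  have h1 : e * (e * f) = 0 := by rw [← mul_assoc, hee, zero_mul]
  have h2 : f * (e * f) = 0 := by rw [← mul_assoc, hfe, neg_mul, mul_assoc, hff]; simp
  have h3 : e * f * e = 0 := by rw [mul_assoc, hfe, mul_neg, h1, neg_zero]
  have h4 : e * f * f = 0 := by rw [mul_assoc, hff, mul_zero]
  have h5 : e * f * (e * f) = 0 := by rw [← mul_assoc, h3, zero_mul]
  simp only [q, add_mul, mul_add, smul_mul_smul_comm, one_mul, mul_one, hee, hff, hfe, h1, h2, h3,
    h4, h5]
  module

omit [Algebra F A] [IsScalarTower F F[X] A] in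
lemma q_add (a b c d a' b' c' d' : F[X]) : q e f a b c d + q e f a' b' c' d' =
      q e f (a + a') (b + b') (c + c') (d + d') := by
  simp only [q]; module

lemma q_smul (t : F) (a b c d : F[X]) : t • q e f a b c d =
      q e f (C t * a) (C t * b) (C t * c) (C t * d) := by
  simp only [q, ← smul_eq_C_mul, smul_assoc, smul_add]

end

theorem lower [CharZero F] {e f : A} (hee : e * e = 0) (hff : f * f = 0) (hfe : f * e = -(e * f))
    (k : ℕ) (κ : F) (μ : A →ₗ[F] F) (σ : A →+* A) (s1 : ∀ (p : F[X]) x, σ (p • x) = p • σ x)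
    (s2 : σ e = -e) (s3 : σ f = -f) (s4 : ∀ x, σ (σ x) = x) (s5 : ∀ x, μ (σ x) = μ x)
    (s6 : ∀ x, x * e = e * σ x) (s7 : ∀ x, x * f = f * σ x)
    (z1 : (X : F[X]) ^ (k + 2) • (1 : A) = 0) (z2 : (X : F[X]) ^ (k + 1) • e = 0)
    (z3 : ∀ x, μ ((X : F[X]) ^ (k + 1) • (f * x)) = 0)
    (z4 : ∀ x, μ ((X : F[X]) ^ (k + 1) • x) = κ * μ ((X : F[X]) ^ k • (e * f * x)))
    (v0 : ∀ j ≤ k, μ ((X : F[X]) ^ j • 1) = 0) (v1 : ∀ j, μ ((X : F[X]) ^ j • e) = 0)
    (v2 : ∀ j, μ ((X : F[X]) ^ j • f) = 0) (v3 : ∀ j < k, μ ((X : F[X]) ^ j • (e * f)) = 0)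
    (v4 : μ ((X : F[X]) ^ k • (e * f)) = 1) :
    ∃ R : Module.End F A, (∀ x y, R x * R y = R (R x * y + x * R y)) ∧
      ∀ j, ∃ c : F, c ≠ 0 ∧ (R ^ (k + 1 + j)) e = c • (X : F[X]) ^ j • f := by
  have qm := q_mul (F := F) hee hff hfe
  have y1 : ∀ i x, (X : F[X]) ^ (k + 2 + i) • (x : A) = 0 := fun i x => by
    rw [← one_mul x, ← smul_mul_assoc, pow_add, mul_comm, mul_smul, z1, smul_zero, zero_mul]
  have y2 : ∀ i x, (X : F[X]) ^ (k + 1 + i) • (e * x) = 0 := fun i x => by
    rw [← smul_mul_assoc, pow_add, mul_comm, mul_smul, z2, smul_zero, zero_mul]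
  have y3 : ∀ i x, μ ((X : F[X]) ^ (k + 1 + i) • (f * x)) = 0 := fun i x => by
    rw [pow_add, mul_smul, ← mul_smul_comm (X ^ i), z3]
  have Cs : ∀ (t : F) (p : F[X]) (x : A), p • t • x = t • p • x := fun t p x => by
    rw [← smul_one_smul F[X] t x, smul_smul, ← smul_assoc, mul_smul_comm, mul_one]
  have y4 : ∀ i x, μ ((X : F[X]) ^ (k + 1 + i) • ((X : F[X]) • x - κ • (e * f * x))) = 0 := by
    intro i x
    rw [smul_sub, smul_smul, ← pow_succ, show k + 1 + i + 1 = k + 2 + i by ring, y1, Cs, mul_assoc,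
      y2]
    simp
  have μq : ∀ a b c d : F[X], μ (q e f a b c d) = κ * a.coeff (k + 1) + d.coeff k := by
    intro a b c d
    have a1 := dual μ (k + 1) 1 (fun i => by rw [y1, map_zero]) (C κ) (fun j hj => by
      cases j with
      | zero => simp [z4, v4]
      | succ j => rw [coeff_C_succ, v0 _ (by omega)]) a
    have a2 := dual μ k e (fun i => v1 _) 0 (fun j _ => by simp [v1]) b
    have a3 := dual μ k f (fun i => v2 _) 0 (fun j _ => by simp [v2]) c
    have a4 := dual μ k (e * f) (fun i => by rw [y2, map_zero]) 1 (fun j hj => by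
      cases j with
      | zero => simp [v4]
      | succ j => rw [v3 _ (by omega), coeff_one, if_neg (by omega)]) d
    simp only [q, map_add, a1, a2, a3, a4]
    simp [mul_comm]
  let K : Submodule F A :=
    { carrier := {x | ∀ a b c d : F[X], μ (q e f (X * a) b c d * x) = 0}
      add_mem' := fun hx hy a b c d => by rw [mul_add, map_add, hx, hy, add_zero]
      zero_mem' := fun a b c d => by simp
      smul_mem' := fun t x hx a b c d => by rw [mul_smul_comm, map_smul, hx, smul_zero] }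
  have Kl : ∀ (a b c d : F[X]), ∀ x ∈ K, q e f (X * a) b c d * x ∈ K := by
    intro a b c d x hx a' b' c' d'
    rw [← mul_assoc, qm, mul_assoc X a']
    exact hx _ _ _ _
  have Kσ : ∀ x ∈ K, σ x ∈ K := by
    intro x hx a b c d
    rw [← s5, ← hx a (-b) (-c) d]
    simp [q, s1, s2, s3, s4]
  have Kr : ∀ (a b c d : F[X]), ∀ x ∈ K, x * q e f (X * a) b c d ∈ K := by
    intro a b c d x hx
    have : x * q e f (X * a) b c d = q e f (X * a) 0 0 d * x + q e f (X * 0) b c 0 * σ x := by
      have : x * (e * f) = e * f * x := by rw [← mul_assoc, s6, mul_assoc, s7, s4, mul_assoc]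
      simp only [q, mul_add, add_mul, mul_smul_comm, smul_mul_assoc, this, s6 x, s7 x, mul_one,
        one_mul]
      module
    rw [this]
    exact add_mem (Kl _ _ _ _ _ hx) (Kl _ _ _ _ _ (Kσ _ hx))
  let Rel : A → A → Prop := fun x y => ∃ r0 r1 r2 r3 : F[X],
    y = q e f (X * r0) (X * r1) r2 (X * r3) ∧
    x - q e f (r0 + X * derivative r0) (X * derivative r1 - C (k : F) * r1 + X ^ k * r2)
      (derivative r2) (X * derivative r3 - C (k : F) * r3) ∈ K
  have radd : ∀ x y x' y', Rel x y → Rel x' y' → Rel (x + x') (y + y') := by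
    rintro x _ x' _ ⟨r0, r1, r2, r3, rfl, h⟩ ⟨t0, t1, t2, t3, rfl, h'⟩
    refine ⟨r0 + t0, r1 + t1, r2 + t2, r3 + t3, by simp only [q_add, mul_add], ?_⟩
    convert add_mem h h' using 1
    rw [sub_add_sub_comm, q_add]
    congr 2 <;> simp only [derivative_add] <;> ring
  have rsmul : ∀ (t : F) x y, Rel x y → Rel (t • x) (t • y) := by
    rintro t x _ ⟨r0, r1, r2, r3, rfl, h⟩
    refine ⟨C t * r0, C t * r1, C t * r2, C t * r3, by simp only [q_smul, mul_left_comm], ?_⟩
    convert K.smul_mem t h using 1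
    rw [smul_sub, q_smul]
    congr 2 <;> simp only [derivative_C_mul] <;> ring
  have rmul : ∀ x y x' y', Rel x y → Rel x' y' → Rel (y * x' + x * y') (y * y') := by
    rintro x _ x' _ ⟨r0, r1, r2, r3, rfl, h⟩ ⟨t0, t1, t2, t3, rfl, h'⟩
    refine ⟨X * r0 * t0, X * (r0 * t1 + r1 * t0), X * (r0 * t2 + r2 * t0),
      X * r0 * t3 + X * r3 * t0 + r1 * t2 - r2 * t1, ?_, ?_⟩
    · rw [qm]; congr 1 <;> ring
    · convert add_mem (Kl r0 (X * r1) r2 (X * r3) _ h') (Kr t0 (X * t1) t2 (X * t3) _ h) using 1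
      rw [mul_sub (q _ _ _ _ _ _), sub_mul, sub_add_sub_comm, qm, qm, q_add]
      congr 2 <;>
        simp only [derivative_mul, derivative_add, derivative_sub, derivative_X, one_mul] <;> ring
  have kne : ∀ j < k, (j : F) - k ≠ 0 := fun j hj => sub_ne_zero.2 (by exact_mod_cast hj.ne)
  have jne : ∀ j : ℕ, (j : F) + 1 ≠ 0 := fun j => by exact_mod_cast Nat.succ_ne_zero j
  have c0 : ∀ (r : F[X]) j, (r + X * derivative r).coeff j = (j + 1) * r.coeff j := fun r j => by
    rw [coeff_add, coeff_Xd]; ring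
  have c3 : ∀ (r : F[X]) j, (X * derivative r - C (k : F) * r).coeff j = (j - k) * r.coeff j :=
    fun r j => by rw [coeff_sub, coeff_Xd, coeff_C_mul]; ring
  have rzero : ∀ y, Rel 0 y → y = 0 := by
    rintro _ ⟨r0, r1, r2, r3, rfl, h⟩
    have h' : ∀ a b c d : F[X], κ * (a * (r0 + X * derivative r0)).coeff k +
        (X * a * (X * derivative r3 - C (k : F) * r3) + d * (r0 + X * derivative r0) +
          b * derivative r2 - c * (X * derivative r1 - C (k : F) * r1 + X ^ k * r2)).coeff k = 0 := by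
      intro a b c d
      have := neg_mem h a b c d
      rwa [zero_sub, neg_neg, qm, μq, mul_assoc X a, coeff_X_mul] at this
    have a0 : ∀ j < k + 1, r0.coeff j = 0 := fun j hj => by
      have := h' 0 0 0 (X ^ (k - j))
      simp only [zero_mul, mul_zero, coeff_zero, zero_add, add_zero, sub_zero, coeff_X_pow_mul',
        if_pos (Nat.sub_le k j), c0, show k - (k - j) = j by omega] at this
      exact (mul_eq_zero.1 this).resolve_left (jne j)
    have a1 : ∀ j ≤ k, (j - k) * r1.coeff j + (X ^ k * r2).coeff j = 0 := fun j hj => by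
      have := h' 0 0 (X ^ (k - j)) 0
      simp only [zero_mul, mul_zero, coeff_zero, zero_add, add_zero, zero_sub, coeff_neg,
        neg_eq_zero] at this
      rwa [coeff_X_pow_mul', if_pos (Nat.sub_le k j), show k - (k - j) = j by omega, coeff_add,
        c3] at this
    have a1' : ∀ j < k, r1.coeff j = 0 := fun j hj => by
      have := a1 j hj.le
      rw [coeff_X_pow_mul', if_neg (by omega), add_zero] at this
      exact (mul_eq_zero.1 this).resolve_left (kne j hj)
    have a2 : ∀ j < k + 2, r2.coeff j = 0 := fun j hj => by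
      cases j with
      | zero => simpa [coeff_X_pow_mul'] using a1 k le_rfl
      | succ j =>
        have := h' 0 (X ^ (k - j)) 0 0
        simp only [zero_mul, mul_zero, coeff_zero, zero_add, add_zero, sub_zero, coeff_X_pow_mul',
          if_pos (Nat.sub_le k j), coeff_derivative, show k - (k - j) = j by omega] at this
        exact (mul_eq_zero.1 this).resolve_right (jne j)
    have a3 : ∀ j < k, r3.coeff j = 0 := fun j hj => by
      have := h' (X ^ (k - 1 - j)) 0 0 0
      simp only [zero_mul, add_zero, sub_zero, ← pow_succ', coeff_X_pow_mul', c0, c3,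
        if_pos (show k - 1 - j ≤ k by omega), if_pos (show k - 1 - j + 1 ≤ k by omega),
        show k - (k - 1 - j + 1) = j by omega, a0 (k - (k - 1 - j)) (by omega), mul_zero,
        zero_add] at this
      exact (mul_eq_zero.1 this).resolve_left (kne j hj)
    obtain ⟨t0, rfl⟩ := X_pow_dvd_iff.2 a0
    obtain ⟨t1, rfl⟩ := X_pow_dvd_iff.2 a1'
    obtain ⟨t2, rfl⟩ := X_pow_dvd_iff.2 a2
    obtain ⟨t3, rfl⟩ := X_pow_dvd_iff.2 a3
    have b1 := y1 0 f
    have b2 := y2 0 f
    simp only [q, ← mul_assoc, ← pow_succ', add_zero] at b1 b2 ⊢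
    rw [mul_comm _ t0, mul_comm _ t1, mul_comm _ t2, mul_comm _ t3, mul_smul, mul_smul, mul_smul,
      mul_smul, z1, z2, b1, b2]
    simp
  have runiq : ∀ x y y', Rel x y → Rel x y' → y = y' := by
    intro x y y' h h'
    have := rzero _ (by simpa using radd _ _ _ _ h (rsmul (-1) _ _ h'))
    exact sub_eq_zero.1 (by simpa [sub_eq_add_neg] using this)
  have rex : ∀ x, ∃ y, Rel x y := by
    intro x
    obtain ⟨r0, h0⟩ := exists_poly
      (fun j => μ ((X : F[X]) ^ (k - j) • (e * f * x)) / (j + 1)) (k + 1)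
    obtain ⟨r1, h1⟩ := exists_poly (fun j => -μ ((X : F[X]) ^ (k - j) • (f * x)) / (j - k)) k
    obtain ⟨r2, h2⟩ := exists_poly (fun j => (Nat.casesOn j (-μ (f * x))
      fun j => μ ((X : F[X]) ^ (k - j) • (e * x)) / (j + 1) : F)) (k + 2)
    obtain ⟨r3, h3⟩ := exists_poly (fun j =>
      μ ((X : F[X]) ^ (k - (j + 1)) • ((X : F[X]) • x - κ • (e * f * x))) / (j - k)) k
    refine ⟨_, r0, r1, r2, r3, rfl, fun a b c d => ?_⟩
    have a0 := dual μ k (e * f * x) (fun i => by rw [mul_assoc, y2, map_zero])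
      (r0 + X * derivative r0) fun j hj => by
        rw [c0, h0 j (by omega), mul_div_cancel₀ _ (jne j)]
    have a1 := dual μ k (f * x) (fun i => y3 i x)
      (-(X * derivative r1 - C (k : F) * r1 + X ^ k * r2)) (fun j hj => by
        rw [coeff_neg, coeff_add, c3, coeff_X_pow_mul']
        rcases hj.lt_or_eq with hj | rfl
        · rw [if_neg (by omega), h1 j hj, mul_div_cancel₀ _ (kne j hj)]; simp
        · simp [h2 0]) c
    have a2 := dual μ k (e * x) (fun i => by rw [y2, map_zero]) (derivative r2) (fun j hj => by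
      rw [coeff_derivative, h2 _ (by omega), div_mul_cancel₀ _ (jne j)]) b
    have a3 := dual μ k _ (fun i => y4 i x) (X * (X * derivative r3 - C (k : F) * r3))
      (fun j hj => by
        cases j with
        | zero => simp [smul_sub, smul_smul, ← pow_succ, Cs, z4 x]
        | succ j => rw [coeff_X_mul, c3, h3 j (by omega), mul_div_cancel₀ _ (kne j (by omega))]) a
    rw [smul_sub, map_sub, Cs, map_smul μ κ, a0, smul_smul, smul_eq_mul, sub_eq_iff_eq_add] at a3
    rw [mul_sub, map_sub, qm, μq, mul_assoc X a, coeff_X_mul]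
    simp only [q, add_mul, smul_mul_assoc, one_mul, map_add, mul_comm X a, a3, a0 d, a1, a2,
      coeff_add, coeff_sub, mul_neg, coeff_neg, mul_assoc a X]
    ring
  choose R hR using rex
  let R' : Module.End F A :=
    { toFun := R
      map_add' := fun x y => runiq _ _ _ (hR _) (radd _ _ _ _ (hR x) (hR y))
      map_smul' := fun t x => runiq _ _ _ (hR _) (rsmul t _ _ (hR x)) }
  replace hR : ∀ x, Rel x (R' x) := hR
  clear_value R'
  refine ⟨R', fun x y => runiq _ _ _ (rmul _ _ _ _ (hR x) (hR y)) (hR _), ?_⟩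
  have e1 : ∀ j < k, R' ((X : F[X]) ^ j • e) = ((j : F) - k)⁻¹ • (X : F[X]) ^ (j + 1) • e := by
    intro j hj
    have := runiq _ _ _ (hR (((j : F) - k) • (X : F[X]) ^ j • e))
      ⟨0, X ^ j, 0, 0, rfl, (?_ : _ ∈ K)⟩
    · rw [eq_inv_smul_iff₀ (kne j hj)]
      simpa [q, pow_succ'] using this
    · convert zero_mem K
      have : X * derivative (X ^ j : F[X]) = C (j : F) * X ^ j := by
        ext i; rw [coeff_Xd, coeff_C_mul, coeff_X_pow]; split_ifs with h <;> simp [h]
      simp [q, this, ← sub_mul, ← smul_assoc, smul_eq_C_mul]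
  have e2 : R' ((X : F[X]) ^ k • e) = f := by
    have := runiq _ _ _ (hR ((X : F[X]) ^ k • e)) ⟨0, 0, 1, 0, rfl, (?_ : _ ∈ K)⟩
    · simpa [q] using this
    · simp [q]
  have e3 : ∀ j : ℕ, R' ((X : F[X]) ^ j • f) = ((j : F) + 1)⁻¹ • (X : F[X]) ^ (j + 1) • f := by
    intro j
    have := runiq _ _ _ (hR (((j : F) + 1) • (X : F[X]) ^ j • f))
      ⟨0, 0, X ^ (j + 1), 0, rfl, (?_ : _ ∈ K)⟩
    · rw [eq_inv_smul_iff₀ (jne j)]
      simpa [q] using this
    · convert zero_mem K
      have := y2 j 1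
      rw [mul_one, show k + 1 + j = k + (j + 1) by ring, pow_add] at this
      simp [q, this, ← smul_assoc, smul_eq_C_mul, derivative_X_pow]
  have e4 : ∀ j ≤ k, ∃ c : F, c ≠ 0 ∧ (R' ^ j) e = c • (X : F[X]) ^ j • e := by
    intro j
    induction j with
    | zero => exact fun _ => ⟨1, one_ne_zero, by simp⟩
    | succ j ih =>
      intro hj
      obtain ⟨c, h1, h2⟩ := ih (by omega)
      exact ⟨_, mul_ne_zero h1 (inv_ne_zero (kne j hj)), by
        rw [pow_succ', Module.End.mul_apply, h2, map_smul, e1 j hj, smul_smul]⟩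
  intro j
  induction j with
  | zero =>
    obtain ⟨c, h1, h2⟩ := e4 k le_rfl
    exact ⟨c, h1, by rw [add_zero, pow_succ', Module.End.mul_apply, h2, map_smul, e2]; simp⟩
  | succ j ih =>
    obtain ⟨c, h1, h2⟩ := ih
    exact ⟨_, mul_ne_zero h1 (inv_ne_zero (jne j)), by
      rw [← add_assoc, pow_succ', Module.End.mul_apply, h2, map_smul, e3 j, smul_smul]⟩

end Pool.Agent.H.MP_160e58_al
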