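import Pool.Agent.H.MP_160e58_al.Upper
import Pool.Agent.H.MP_160e58_al.Lower

set_option autoImplicit false
open ExteriorAlgebra Polynomial

namespace Pool.Agent.H.MP_160e58_al

lemma sqz {A : Type*} [Ring A] {t u : A} (hc : u * t = t * u) (hu : u * u = 0) (j : ℕ) :
    (t + u) ^ (j + 1) = t ^ (j + 1) + (j + 1) • (t ^ j * u) := by
  induction j with
  | zero => simp
  | succ j ih =>
    rw [pow_succ, ih]
    simp only [add_mul, mul_add, smul_mul_assoc, mul_assoc, hc, hu, pow_succ, add_smul, one_smul,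
      mul_zero, smul_zero, add_zero]
    abel

variable {F : Type*} [Field F]

lemma cen {V : Type*} [AddCommGroup V] [Module F V] (u v : V) (x : ExteriorAlgebra F V) :
    x * (ι F u * ι F v) = ι F u * ι F v * x := by
  rw [← mul_assoc, mul_ι u x, mul_assoc, mul_ι, σσ, mul_assoc]

lemma ιxι {V : Type*} [AddCommGroup V] [Module F V] (u : V) (x : ExteriorAlgebra F V) :
    ι F u * x * ι F u = 0 := by
  rw [mul_assoc, mul_ι, ← mul_assoc, ι_sq_zero, zero_mul]

variable (F) (n : ℕ)

noncomputable def ε (i : ℕ) : ExteriorAlgebra F (Fin n → F) :=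
  ι F fun l : Fin n => if l.1 = i then 1 else 0

noncomputable def w (j : ℕ) : ExteriorAlgebra F (Fin n → F) := ((List.range j).map (ε F n)).prod

noncomputable def t (k : ℕ) : ExteriorAlgebra F (Fin n → F) :=
  ∑ i ∈ Finset.range k, ε F n (2 * i) * ε F n (2 * i + 1)

noncomputable def lam : ExteriorAlgebra F (Fin n → F) →ₗ[F] F :=
  liftAlternating (Pi.single (M := fun i => (Fin n → F) [⋀^Fin i]→ₗ[F] F) n
    Matrix.detRowAlternating)

lemma w_succ (j : ℕ) : w F n (j + 1) = w F n j * ε F n j := by simp [w, List.range_succ]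

lemma t_cen (k : ℕ) (x : ExteriorAlgebra F (Fin n → F)) : x * t F n k = t F n k * x := by
  simp only [t, Finset.mul_sum, Finset.sum_mul, ε, cen]

lemma t_mem (k : ℕ) : t F n k ∈ ⋀[F]^2 (Fin n → F) :=
  Submodule.sum_mem _ fun _ _ => mul_mem_pow (ι_mem _) (ι_mem _)

lemma t_pow (k : ℕ) : t F n k ^ (k + 1) = 0 ∧ t F n k ^ k = k.factorial • w F n (2 * k) := by
  induction k with
  | zero => simp [t, w]
  | succ k ih =>
    have hu : ε F n (2 * k) * ε F n (2 * k + 1) * (ε F n (2 * k) * ε F n (2 * k + 1)) = 0 := by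
      rw [← mul_assoc, ε, ιxι, zero_mul]
    have e : t F n (k + 1) = t F n k + ε F n (2 * k) * ε F n (2 * k + 1) := Finset.sum_range_succ _ _
    rw [e, sqz (t_cen F n k _) hu, sqz (t_cen F n k _) hu, pow_succ _ (k + 1), ih.1, ih.2,
      mul_add_one, w_succ, w_succ, Nat.factorial_succ, mul_smul, smul_mul_assoc, mul_assoc]
    simp

lemma lam_w : lam F n (w F n n) = 1 := by
  have : w F n n = ιMulti F n fun i l : Fin n => if l.1 = i.1 then 1 else 0 := by
    rw [ιMulti_apply, w, List.ofFn_eq_map, ← List.map_coe_finRange_eq_range, List.map_map]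
    rfl
  rw [this, lam, liftAlternating_apply_ιMulti, Pi.single_eq_same]
  convert Matrix.det_one (n := Fin n) (R := F)
  refine congrArg Matrix.det ?_
  ext i j
  simp [Matrix.one_apply, Fin.ext_iff, eq_comm]

variable {F n}

lemma lam_deg {d : ℕ} (hd : d ≠ n) {x : ExteriorAlgebra F (Fin n → F)}
    (hx : x ∈ ⋀[F]^d (Fin n → F)) : lam F n x = 0 := by
  rw [← ιMulti_span_fixedDegree] at hx
  refine (Submodule.span_le (p := LinearMap.ker (lam F n))).2 ?_ hx
  rintro _ ⟨v, rfl⟩
  simp [lam, hd]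

lemma lam_σ (x : ExteriorAlgebra F (Fin n → F)) : lam F n (σ x) = (-1) ^ n * lam F n x := by
  have : lam F n ∘ₗ σ.toLinearMap = (-1 : F) ^ n • lam F n := by
    refine lhom_ext fun i => AlternatingMap.ext fun v => ?_
    have h := ιMulti_range F i ⟨v, rfl⟩
    simp only [LinearMap.compAlternatingMap_apply, LinearMap.comp_apply, AlgHom.toLinearMap_apply,
      LinearMap.smul_apply, σ_pow h, map_smul]
    by_cases hi : i = n
    · subst hi; rfl
    · rw [lam_deg hi h]; simp
  exact DFunLike.congr_fun this x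

lemma inst [CharZero F] (k c : ℕ) (hn : n = 2 * k + 2 + c) (u : Fin n → F)
    (s : ExteriorAlgebra F (Fin n → F)) (hs : s ∈ ⋀[F]^c (Fin n → F))
    (hw : w F n n = w F n (2 * k) * (ε F n (2 * k) * ε F n (2 * k + 1)) * s) (κ : F)
    (z3 : ∀ x, lam F n (t F n k ^ k * (ε F n (2 * k) * ι F u) * (ε F n (2 * k + 1) * x) * s) = 0)
    (z4 : ∀ x, (k + 1) * lam F n (t F n k ^ k * (ε F n (2 * k) * ι F u) * x * s) =
      κ * lam F n (t F n k ^ k * (ε F n (2 * k) * ε F n (2 * k + 1)) * x * s)) :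
    ∃ R : Module.End F (ExteriorAlgebra F (Fin n → F)),
      (∀ x y, R x * R y = R (R x * y + x * R y)) ∧ ∀ j, ∃ c : F, c ≠ 0 ∧
        (R ^ (k + 1 + j)) (ε F n (2 * k)) =
          c • ((t F n k + ε F n (2 * k) * ι F u) ^ j * ε F n (2 * k + 1)) := by
  have me : ε F n (2 * k) ∈ ⋀[F]^1 (Fin n → F) := ι_mem _
  have mf : ε F n (2 * k + 1) ∈ ⋀[F]^1 (Fin n → F) := ι_mem _
  have ue : ε F n (2 * k) * ι F u * ε F n (2 * k) = 0 := ιxι _ _
  have hu : ε F n (2 * k) * ι F u * (ε F n (2 * k) * ι F u) = 0 := by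
    rw [← mul_assoc, ue, zero_mul]
  have sq := sqz (t_cen F n k _) hu
  set ω := t F n k + ε F n (2 * k) * ι F u with hω
  have oc : ∀ x, x * ω = ω * x := fun x => by rw [hω, mul_add, add_mul, t_cen, ε, cen]
  have om : ∀ j, ω ^ j ∈ ⋀[F]^(2 * j) (Fin n → F) := fun j => by
    induction j with
    | zero => simp [exteriorPower]
    | succ j ih =>
      rw [pow_succ]
      exact mul_mem_pow ih (add_mem (t_mem F n k) (mul_mem_pow me (ι_mem u)))
  have oe : ω ^ k * ε F n (2 * k) = t F n k ^ k * ε F n (2 * k) := by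
    rcases k with _ | k
    · simp
    · rw [sq, add_mul, smul_mul_assoc, mul_assoc, ue]; simp
  have o1 : ω ^ (k + 1) = (k + 1) • (t F n k ^ k * (ε F n (2 * k) * ι F u)) := by
    rw [sq, (t_pow F n k).1, zero_add]
  letI : Algebra F[X] (ExteriorAlgebra F (Fin n → F)) :=
    (aeval ω).toRingHom.toAlgebra' fun p x => by
      induction p using Polynomial.induction_on' with
      | add p q hp hq => simp only [map_add, add_mul, mul_add, hp, hq]
      | monomial i a =>
        simp only [AlgHom.toRingHom_eq_coe, RingHom.coe_coe, aeval_monomial]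
        rw [mul_assoc, ((show Commute x ω from oc x).pow_right i).eq.symm, ← mul_assoc,
          Algebra.commutes, mul_assoc]
  haveI : IsScalarTower F F[X] (ExteriorAlgebra F (Fin n → F)) :=
    IsScalarTower.of_algebraMap_eq fun r => (aeval_C ω r).symm
  have sm : ∀ (p : F[X]) (x : ExteriorAlgebra F (Fin n → F)), p • x = aeval ω p * x :=
    fun _ _ => rfl
  have sx : ∀ (j : ℕ) (x : ExteriorAlgebra F (Fin n → F)), (X : F[X]) ^ j • x = ω ^ j * x :=
    fun j x => by rw [sm, map_pow, aeval_X]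
  have fne : (k.factorial : F) ≠ 0 := Nat.cast_ne_zero.2 (Nat.factorial_ne_zero _)
  have := lower (F := F) (e := ε F n (2 * k)) (f := ε F n (2 * k + 1)) (ι_sq_zero _) (ι_sq_zero _)
    (eq_neg_iff_add_eq_zero.2 (ι_add_mul_swap _ _)) k κ
    ((k.factorial : F)⁻¹ • lam F n ∘ₗ LinearMap.mulRight F s) σ.toRingHom ?_ (σ_ι _) (σ_ι _) σσ ?_
    (mul_ι _) (mul_ι _) ?_ ?_ ?_ ?_ ?_ ?_ ?_ ?_ ?_
  · simpa only [sx] using this
  all_goals simp only [sx, LinearMap.smul_apply, LinearMap.comp_apply, LinearMap.mulRight_apply,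
    smul_eq_mul, AlgHom.toRingHom_eq_coe, RingHom.coe_coe]
  · intro p x
    rw [sm, sm, map_mul, ← aeval_algHom_apply, show σ ω = ω by simpa using σ_pow (om 1)]
  · intro x
    rw [← σσ s, ← map_mul, lam_σ, σσ, σ_pow hs, mul_smul_comm, map_smul, smul_eq_mul,
      ← mul_assoc ((-1 : F) ^ n), ← pow_add, show n + c = 2 * (k + 1 + c) by omega, pow_mul]
    simp
  · rw [sq, pow_succ _ (k + 1), (t_pow F n k).1]; simp
  · rw [o1, smul_mul_assoc, mul_assoc, ue]; simp
  · intro x
    rw [o1, smul_mul_assoc, smul_mul_assoc, map_nsmul, z3]; simp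
  · intro x
    rw [o1, smul_mul_assoc, smul_mul_assoc, map_nsmul, nsmul_eq_mul, Nat.cast_succ, z4,
      ← mul_assoc (ω ^ k), ← mul_assoc (ω ^ k), oe, mul_left_comm]
    simp only [mul_assoc]
  · intro j hj
    rw [mul_one, lam_deg (by omega) (mul_mem_pow (om j) hs), mul_zero]
  · intro j
    rw [lam_deg (by omega) (mul_mem_pow (mul_mem_pow (om j) me) hs), mul_zero]
  · intro j
    rw [lam_deg (by omega) (mul_mem_pow (mul_mem_pow (om j) mf) hs), mul_zero]
  · intro j hj
    rw [lam_deg (by omega) (mul_mem_pow (mul_mem_pow (om j) (mul_mem_pow me mf)) hs), mul_zero]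
  · rw [← mul_assoc (ω ^ k), oe, mul_assoc (t F n k ^ k), (t_pow F n k).2, smul_mul_assoc,
      smul_mul_assoc, ← hw, map_nsmul, lam_w]
    simp [fne]

theorem lower_main [CharZero F] (hn : 1 ≤ n) :
    ∃ R : Module.End F (ExteriorAlgebra F (Fin n → F)),
      (∀ x y, R x * R y = R (R x * y + x * R y)) ∧ R ^ (max n 2 - 1) ≠ 0 := by
  have fne : ∀ k : ℕ, (k.factorial : F) ≠ 0 := fun k =>
    Nat.cast_ne_zero.2 (Nat.factorial_ne_zero _)
  by_cases h1 : n = 1
  · subst h1
    have hw : w F 1 1 = ε F 1 0 := by simp [w]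
    refine ⟨(lam F 1 ∘ₗ LinearMap.mulRight F (ε F 1 0)).smulRight (ε F 1 0), fun x y => ?_,
      fun h => ?_⟩
    · have h1 : ε F 1 0 * ε F 1 0 = 0 := ι_sq_zero _
      have h2 : ε F 1 0 * y * ε F 1 0 = 0 := ιxι _ _
      simp [add_mul, mul_assoc x, h1, h2]
    · have := congrArg (fun T : Module.End F _ => lam F 1 (T 1)) h
      simp [← hw, lam_w] at this
  obtain ⟨k, hk | hk⟩ : ∃ k, n = 2 * k + 2 + 0 ∨ n = 2 * k + 2 + 1 := ⟨n / 2 - 1, by omega⟩
  · have hw : w F n n = w F n (2 * k) * (ε F n (2 * k) * ε F n (2 * k + 1)) * 1 := by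
      rw [mul_one, ← mul_assoc, ← w_succ, ← w_succ]; congr 1
    obtain ⟨R, h2, h3⟩ := inst k 0 hk (fun l : Fin n => if l.1 = 2 * k + 1 then 1 else 0) 1
      (by simp [exteriorPower]) hw (k + 1) (fun x => by
        rw [mul_assoc (t F n k ^ k), mul_assoc (ε F n (2 * k)), ε, ε, ← mul_assoc (ι F _) _ x,
          ι_sq_zero]
        simp) fun x => rfl
    obtain ⟨c, h4, h5⟩ := h3 k
    refine ⟨R, h2, fun h => ?_⟩
    rw [show k + 1 + k = max n 2 - 1 by omega, h, LinearMap.zero_apply, eq_comm, smul_eq_zero,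
      or_iff_right h4] at h5
    have h6 : t F n k ^ k * ε F n (2 * k + 1) = 0 := by
      rcases k with _ | k
      · simpa using h5
      · rw [sqz (t_cen F n _ _) (by rw [← mul_assoc, ε, ιxι, zero_mul]), add_mul, smul_mul_assoc,
          mul_assoc, mul_assoc, ε, ε, ι_sq_zero] at h5
        simpa [ε] using h5
    have h7 := congrArg (fun z => lam F n (ε F n (2 * k) * z)) h6
    simp only [← mul_assoc, ((show Commute _ _ from t_cen F n k (ε F n (2 * k))).pow_right k).eq]
      at h7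
    rw [mul_assoc, (t_pow F n k).2, smul_mul_assoc, ← mul_one (_ * _), ← hw, map_nsmul,
      lam_w] at h7
    simp [fne] at h7
  · have hw : w F n n = w F n (2 * k) * (ε F n (2 * k) * ε F n (2 * k + 1)) * ε F n (2 * k + 2) := by
      rw [← mul_assoc, ← w_succ, ← w_succ, ← w_succ]; congr 1
    have z : ∀ x, lam F n (t F n k ^ k * (ε F n (2 * k) * ε F n (2 * k + 2)) * x *
        ε F n (2 * k + 2)) = 0 := fun x => by
      have : ε F n (2 * k + 2) * x * ε F n (2 * k + 2) = 0 := ιxι _ _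
      simp only [mul_assoc] at this ⊢
      simp [this]
    obtain ⟨R, h2, h3⟩ := inst k 1 hk (fun l : Fin n => if l.1 = 2 * k + 2 then 1 else 0) _
      (ι_mem _) hw 0 (fun x => z _) fun x => by rw [zero_mul]; exact mul_eq_zero_of_right _ (z x)
    obtain ⟨c, h4, h5⟩ := h3 (k + 1)
    refine ⟨R, h2, fun h => ?_⟩
    rw [show k + 1 + (k + 1) = max n 2 - 1 by omega, h, LinearMap.zero_apply, eq_comm, smul_eq_zero,
      or_iff_right h4, sqz (t_cen F n _ _) (by rw [← mul_assoc, ε, ιxι, zero_mul]),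
      (t_pow F n k).1, (t_pow F n k).2, zero_add] at h5
    have h6 : ε F n (2 * k + 2) * ε F n (2 * k + 1) = -(ε F n (2 * k + 1) * ε F n (2 * k + 2)) :=
      eq_neg_iff_add_eq_zero.2 (ι_add_mul_swap _ _)
    have h7 := congrArg (lam F n) h5
    change lam F n ((k + 1) • (_ * (_ * ε F n (2 * k + 2))) * _) = _ at h7
    simp only [smul_mul_assoc, mul_assoc, h6, mul_neg] at h7 hw
    simp only [← hw, smul_neg, map_neg, map_nsmul, lam_w, map_zero] at h7
    simp [fne] at h7
    exact_mod_cast h7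

end Pool.Agent.H.MP_160e58_al
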