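import Mathlib

set_option autoImplicit false
open ExteriorAlgebra

namespace Pool.Agent.H.MP_160e58_al

section jordan
variable {F A : Type*} [Field F] [CharZero F] [AddCommGroup A] [Module F A]
  {M R : Module.End F A}

omit [CharZero F] in
lemma jp1 (h : M * R = R * M + R * R) (k : ℕ) :
    M * R ^ k = R ^ k * M + (k : F) • R ^ (k + 1) := by
  induction k with
  | zero => simp
  | succ k ih =>
    rw [pow_succ R k, ← mul_assoc, ih, add_mul, mul_assoc, h, Nat.cast_succ, add_smul, one_smul,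
      smul_mul_assoc, ← pow_succ, mul_add, ← mul_assoc, ← mul_assoc, ← pow_succ, ← pow_succ]
    abel

lemma jp2 (h : M * R = R * M + R * R) (x : A) : ∀ k p q : ℕ,
    (∀ i j, i + j = k → (M ^ (p + i)) (R ((M ^ (q + j)) x)) = 0) →
    (M ^ p) ((R ^ (k + 1)) ((M ^ q) x)) = 0 := by
  intro k
  induction k with
  | zero => exact fun p q H => by simpa using H 0 0 rfl
  | succ k ih =>
    intro p q H
    have h1 := ih (p + 1) q fun i j e => by
      rw [add_assoc]; exact H _ _ (by omega)
    have h2 := ih p (q + 1) fun i j e => by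
      rw [add_assoc]; exact H _ _ (by omega)
    have h3 := congrArg (fun T : Module.End F A => (M ^ p) (T ((M ^ q) x))) (jp1 h (k + 1))
    rw [pow_succ M p] at h1
    rw [pow_succ' M q] at h2
    simp only [Module.End.mul_apply, LinearMap.add_apply, LinearMap.smul_apply, map_add,
      map_smul] at h1 h2 h3
    rw [h1, h2, zero_add, eq_comm, smul_eq_zero] at h3
    exact h3.resolve_left (Nat.cast_ne_zero.2 (by omega))

lemma jp3 (h : M * R = R * M + R * R) (x : A) (c : ℕ) (hx : M x = (c : F) • R x) (k : ℕ) :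
    M ((R ^ k) x) = ((k + c : ℕ) : F) • (R ^ (k + 1)) x := by
  have h3 := congrArg (fun T : Module.End F A => T x) (jp1 h k)
  simp only [Module.End.mul_apply, LinearMap.add_apply, LinearMap.smul_apply, hx, map_smul] at h3
  rw [h3, pow_succ, Module.End.mul_apply, Nat.cast_add, add_smul, add_comm]

lemma jp4 (h : M * R = R * M + R * R) (x : A) (hx : M x = R x) (k : ℕ) :
    (M ^ k) x = (k.factorial : F) • (R ^ k) x := by
  induction k with
  | zero => simp
  | succ k ih =>
    rw [pow_succ', Module.End.mul_apply, ih, map_smul, jp3 h x 1 (by simpa using hx), smul_smul,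
      Nat.factorial_succ, Nat.cast_mul, mul_comm]

end jordan

variable {F V : Type*} [Field F] [AddCommGroup V] [Module F V]

noncomputable def σ : ExteriorAlgebra F V →ₐ[F] ExteriorAlgebra F V :=
  ExteriorAlgebra.map (-LinearMap.id)

@[simp] lemma σ_ι (v : V) : σ (ι F v) = -ι F v := by simp [σ]

lemma mul_ι (v : V) (x : ExteriorAlgebra F V) : x * ι F v = ι F v * σ x := by
  induction x using ExteriorAlgebra.induction with
  | algebraMap r => simp [Algebra.commutes]
  | ι a => rw [σ_ι, mul_neg, eq_neg_iff_add_eq_zero, ι_add_mul_swap]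
  | mul a b ha hb => rw [mul_assoc, hb, ← mul_assoc, ha, map_mul, mul_assoc]
  | add a b ha hb => rw [add_mul, ha, hb, map_add, mul_add]

lemma σ_pow {d : ℕ} {x : ExteriorAlgebra F V} (hx : x ∈ ⋀[F]^d V) : σ x = (-1 : F) ^ d • x := by
  induction hx using Submodule.pow_induction_on_left' with
  | algebraMap r => simp
  | add x y i _ _ hx hy => rw [map_add, hx, hy, smul_add]
  | mem_mul m hm i x _ ih =>
    obtain ⟨v, rfl⟩ := hm
    rw [map_mul, ih, σ_ι, pow_succ]
    simp

lemma σσ (x : ExteriorAlgebra F V) : σ (σ x) = x := by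
  have : (σ : ExteriorAlgebra F V →ₐ[F] _).comp σ = AlgHom.id _ _ := by ext; simp
  exact DFunLike.congr_fun this x

lemma mul_mem_pow {d d' : ℕ} {x y : ExteriorAlgebra F V} (hx : x ∈ ⋀[F]^d V)
    (hy : y ∈ ⋀[F]^d' V) : x * y ∈ ⋀[F]^(d + d') V := by
  rw [exteriorPower, pow_add]; exact Submodule.mul_mem_mul hx hy

lemma ι_mem (v : V) : ι F v ∈ ⋀[F]^1 V := by
  rw [exteriorPower, pow_one]; exact ⟨v, rfl⟩

variable (F V) in
noncomputable def G (k : ℕ) : Submodule F (ExteriorAlgebra F V) := ⨆ d, ⋀[F]^(k + d) V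

lemma G_zero : G F V 0 = ⊤ := by
  simp only [G, zero_add]
  exact (DirectSum.Decomposition.isInternal fun i : ℕ => ⋀[F]^i V).submodule_iSup_eq_top

lemma mem_G_zero (x : ExteriorAlgebra F V) : x ∈ G F V 0 := by rw [G_zero]; trivial

lemma le_G {k d : ℕ} (h : k ≤ d) : ⋀[F]^d V ≤ G F V k := by
  obtain ⟨c, rfl⟩ := Nat.exists_eq_add_of_le h
  exact le_iSup (fun d => ⋀[F]^(k + d) V) c

lemma G_anti {k l : ℕ} (h : k ≤ l) : G F V l ≤ G F V k := iSup_le fun _ => le_G (by omega)

lemma G_succ (k : ℕ) : G F V k ≤ ⋀[F]^k V ⊔ G F V (k + 1) := iSup_le fun d => by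
  rcases d with _ | d
  · exact le_sup_left
  · exact (le_G (by omega)).trans le_sup_right

lemma G_mul {k l : ℕ} {x y : ExteriorAlgebra F V} (hx : x ∈ G F V k) (hy : y ∈ G F V l) :
    x * y ∈ G F V (k + l) := by
  have : G F V k * G F V l ≤ G F V (k + l) := by
    simp only [G, Submodule.iSup_mul, Submodule.mul_iSup]
    refine iSup_le fun d => iSup_le fun d' => Submodule.mul_le.2 fun a ha b hb =>
      (le_G (by omega) : _ ≤ G F V (k + l)) (mul_mem_pow ha hb)
  exact this (Submodule.mul_mem_mul hx hy)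

lemma split (x : ExteriorAlgebra F V) : ∃ c : F, ∃ y ∈ G F V 1, x = c • 1 + y := by
  obtain ⟨a, ha, b, hb, rfl⟩ := Submodule.mem_sup.1 (G_succ 0 (mem_G_zero x))
  rw [exteriorPower, pow_zero, Submodule.mem_one] at ha
  obtain ⟨c, rfl⟩ := ha
  exact ⟨c, b, hb, by rw [Algebra.algebraMap_eq_smul_one]⟩

lemma anti {a x : ExteriorAlgebra F V} (ha : a ∈ G F V 1) {j : ℕ} (hx : x ∈ G F V (2 * j + 1)) :
    a * x + x * a ∈ G F V (2 * j + 3) := by
  obtain ⟨v, hv, a', ha', rfl⟩ := Submodule.mem_sup.1 (G_succ _ ha)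
  obtain ⟨u, hu, x', hx', rfl⟩ := Submodule.mem_sup.1 (G_succ _ hx)
  have hvG := le_G le_rfl hv
  rw [exteriorPower, pow_one] at hv
  obtain ⟨v, rfl⟩ := hv
  have e : u * ι F v = -(ι F v * u) := by
    rw [mul_ι, σ_pow hu, pow_succ, pow_mul]; simp
  have h1 := G_mul hvG hx'
  have h2 := G_mul hx' hvG
  have h3 := G_mul ha' hx
  have h4 := G_mul hx ha'
  rw [show 1 + (2 * j + 1 + 1) = 2 * j + 3 by ring] at h1
  rw [show 1 + 1 + (2 * j + 1) = 2 * j + 3 by ring] at h3
  have := add_mem (add_mem h1 h2) (add_mem h3 h4)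
  convert this using 1
  simp only [add_mul, mul_add, e]
  abel

variable [Module.Finite F V]

lemma pow_bot {d : ℕ} (h : Module.finrank F V < d) : ⋀[F]^d V = ⊥ := by
  rw [← Submodule.finrank_eq_zero, exteriorPower.finrank_eq, Nat.choose_eq_zero_of_lt h]

lemma G_bot {k : ℕ} (h : Module.finrank F V < k) {x : ExteriorAlgebra F V} (hx : x ∈ G F V k) :
    x = 0 := by
  have : G F V k ≤ ⊥ := iSup_le fun d => (pow_bot (by omega)).le
  exact this hx

lemma G_top : ∃ τ, ∀ x ∈ G F V (Module.finrank F V), ∃ c : F, x = c • τ := by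
  obtain ⟨τ, hτ⟩ := finrank_le_one_iff.1
    (show Module.finrank F (⋀[F]^(Module.finrank F V) V) ≤ 1 by simp [exteriorPower.finrank_eq])
  refine ⟨τ, fun x hx => ?_⟩
  obtain ⟨a, ha, b, hb, rfl⟩ := Submodule.mem_sup.1 (G_succ _ hx)
  obtain ⟨c, hc⟩ := hτ ⟨a, ha⟩
  exact ⟨c, by rw [G_bot (by omega) hb, add_zero]; exact (congrArg Subtype.val hc).symm⟩

variable [CharZero F] [Nontrivial V]

theorem upper (R : Module.End F (ExteriorAlgebra F V))
    (hR : ∀ x y, R x * R y = R (R x * y + x * R y)) : R ^ (max (Module.finrank F V) 2) = 0 := by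
  set n := Module.finrank F V with hn
  have hn0 : 0 < n := Module.finrank_pos
  have him : ∀ y, R y ∈ G F V 1 := by
    intro y
    obtain ⟨c, ν, hν, e⟩ := split (R y)
    by_cases hc : c = 0
    · rw [e, hc]; simpa using hν
    exfalso
    have h1 : ∀ k, ν ^ k ∈ G F V k ∧ ∃ z, ν ^ k = R z + (-c) ^ k • 1 := by
      intro k
      induction k with
      | zero => exact ⟨mem_G_zero _, 0, by simp⟩
      | succ k ih =>
        obtain ⟨h1, z, h2⟩ := ih
        refine ⟨pow_succ ν k ▸ G_mul h1 hν, R z * y + z * R y - c • z + (-c) ^ k • y, ?_⟩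
        have : ν = R y - c • 1 := by rw [e]; abel
        rw [pow_succ, h2, map_add, map_sub, ← hR, map_smul, map_smul]
        nth_rewrite 1 [this]
        simp only [add_mul, mul_sub, smul_mul_assoc, mul_smul_comm, one_mul, mul_one, pow_succ]
        module
    obtain ⟨h2, z, h3⟩ := h1 (n + 1)
    rw [G_bot (by omega) h2] at h3
    have h4 : R ((-((-c) ^ (n + 1))⁻¹) • z) = 1 := by
      have : (-c) ^ (n + 1) ≠ 0 := pow_ne_zero _ (neg_ne_zero.2 hc)
      rw [map_smul, eq_neg_of_add_eq_zero_left h3.symm, smul_neg, smul_smul, neg_mul,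
        inv_mul_cancel₀ this]
      simp
    generalize (-((-c) ^ (n + 1))⁻¹) • z = w at h4
    have := hR w w
    simp only [h4, mul_one, one_mul, map_add] at this
    simp at this
  set M : Module.End F (ExteriorAlgebra F V) :=
    (2 : F)⁻¹ • (LinearMap.mulLeft F (R 1) + LinearMap.mulRight F (R 1)) with hM
  have Ma : ∀ x, M x = (2 : F)⁻¹ • (R 1 * x + x * R 1) := fun x => rfl
  have J : M * R = R * M + R * R := by
    refine LinearMap.ext fun x => ?_
    have h1 := hR 1 x
    have h2 := hR x 1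
    simp only [Module.End.mul_apply, LinearMap.add_apply, Ma, h1, h2, map_add, map_smul, one_mul,
      mul_one]
    module
  have M1 : M 1 = R 1 := by rw [Ma]; simp only [mul_one, one_mul]; module
  have MG : ∀ k j x, x ∈ G F V (2 * j + 1) → (M ^ k) x ∈ G F V (2 * (j + k) + 1) := by
    intro k j x hx
    induction k with
    | zero => simpa using hx
    | succ k ih =>
      rw [pow_succ', Module.End.mul_apply, Ma]
      exact Submodule.smul_mem _ _ (anti (him 1) ih)
  have R1 : ∀ k, n < 2 * k + 1 → (R ^ (k + 1)) 1 = 0 := by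
    intro k hk
    have := jp4 J 1 M1 (k + 1)
    rw [pow_succ M, Module.End.mul_apply, M1, G_bot (by omega) (MG k 0 _ (him 1)), eq_comm,
      smul_eq_zero] at this
    exact this.resolve_left (Nat.cast_ne_zero.2 (Nat.factorial_ne_zero _))
  have nil : ∀ x ∈ G F V 1, (R ^ (2 * n + 1)) x = 0 := by
    intro x hx
    refine jp2 J x (2 * n) 0 0 fun i j e => ?_
    by_cases hi : n ≤ i
    · exact G_bot (by omega) (MG _ 0 _ (him _))
    · rw [G_bot (by omega) (MG (0 + j) 0 _ hx), map_zero, map_zero]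
  have main : ∀ x ∈ G F V 1, (R ^ n) x = 0 := by
    intro x hx
    obtain ⟨k, hk⟩ : ∃ k, n = k + 1 := ⟨n - 1, by omega⟩
    rw [hk]
    refine jp2 J x k 0 0 fun i j e => ?_
    by_cases hi : n < 2 * i + 1
    · exact G_bot (by omega) (MG _ 0 _ (him _))
    by_cases hj : n < 2 * j + 1
    · rw [G_bot (by omega) (MG (0 + j) 0 _ hx), map_zero, map_zero]
    have e1 : n = 2 * (0 + (0 + j)) + 1 := by omega
    obtain rfl : i = j := by omega
    have hy := MG (0 + i) 0 x hx
    generalize (M ^ (0 + i)) x = y at hy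
    obtain ⟨τ, hτ⟩ := G_top (F := F) (V := V)
    have hz := MG (0 + i) 0 _ (him y)
    have My : M y = 0 := by
      have := MG 1 _ _ hy
      rw [pow_one] at this
      exact G_bot (by omega) this
    have f1 := jp4 J (R y) (by simpa [pow_succ] using jp3 J y 0 (by simp [My]) 1) (0 + i)
    rw [← e1] at hy hz
    obtain ⟨c, rfl⟩ := hτ y hy
    obtain ⟨c', hc'⟩ := hτ _ hz
    by_cases hc : c = 0
    · simp [hc]
    have fne : ((0 + i).factorial : F) ≠ 0 := Nat.cast_ne_zero.2 (Nat.factorial_ne_zero _)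
    have f2 : (R ^ (0 + i + 1)) (c • τ) = (((0 + i).factorial : F)⁻¹ * c' * c⁻¹) • (c • τ) := by
      rw [pow_succ, Module.End.mul_apply, smul_smul, mul_assoc, inv_mul_cancel₀ hc, mul_one,
        mul_smul, ← hc', f1, smul_smul, inv_mul_cancel₀ fne, one_smul]
    have f3 : ∀ N, (R ^ ((0 + i + 1) * N)) (c • τ) =
        (((0 + i).factorial : F)⁻¹ * c' * c⁻¹) ^ N • (c • τ) := by
      intro N
      induction N with
      | zero => simp
      | succ N ih =>
        rw [mul_add_one, pow_add, Module.End.mul_apply, f2, map_smul, ih, smul_smul, pow_succ']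
    have f4 := f3 (2 * n + 1)
    rw [add_one_mul, pow_add, Module.End.mul_apply, nil _ (G_anti (by omega) hy), map_zero, eq_comm,
      smul_eq_zero] at f4
    rcases f4 with f4 | f4
    · have := pow_eq_zero_iff (by omega) |>.1 f4
      simp only [mul_eq_zero, inv_eq_zero, fne, hc, false_or, or_false] at this
      rw [hc', this, zero_smul]
    · rw [f4]; simp
  refine LinearMap.ext fun x => ?_
  obtain ⟨c, y, hy, rfl⟩ := split x
  obtain ⟨k, hk⟩ : ∃ k, max n 2 = k + 1 := ⟨max n 2 - 1, by omega⟩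
  obtain ⟨l, hl⟩ : ∃ l, max n 2 = l + n := ⟨max n 2 - n, by omega⟩
  rw [map_add, map_smul]
  nth_rewrite 1 [hk]
  rw [R1 k (by omega), hl, pow_add, Module.End.mul_apply, main y hy]
  simp

end Pool.Agent.H.MP_160e58_al
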